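import Pool.Agent.Helper86.TH.Stmts

/-! # Project TH, rows HQ, HA, HP -/

set_option linter.unusedSectionVars false

namespace TH31

open MvPolynomial Finset TH

section
variable {K : Type*} [Field K] [CharZero K]

theorem Mj_swap (q t : K) (j : ℕ) : Mj q t j = Mj t q j := by
  rw [Mj, Mj, mul_comm]

theorem tauA_swap (q t : K) : tauA q t = tauA t q := by
  refine MvPolynomial.algHom_ext fun j => ?_
  rw [tauA_X, tauA_X, Mj_swap]

theorem st_HQ (K : Type*) [Field K] [CharZero K] : ST_HQ K := by
  intro q t k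
  rw [Dk, Dk, tauA_swap]

theorem pairS_apply (g : ℕ → Sy K) (P : Polynomial (Sy K)) (N : ℕ) (h : P.natDegree < N) :
    pairS g P = ∑ i ∈ range N, g i * P.coeff i := by
  have h1 : pairS g P = P.sum (fun i a => g i * a) := rfl
  rw [h1, Polynomial.sum_over_range' _ (fun i => by simp) N h]

theorem plq_X (q : K) (j : ℕ) : plq q (X j) = C (1 - q ^ (j + 1)) * (X j : Sy K) := by
  simp [plq]

theorem alA_X (t : K) (j : ℕ) : alA t (X j) = Polynomial.C (X j)
    + Polynomial.C (C (1 - t ^ (j + 1))) * Polynomial.X ^ (j + 1) := by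
  simp [alA]

theorem plq_C (q a : K) : plq q (C a) = (C a : Sy K) := by
  have h := (plq q).commutes a
  rw [MvPolynomial.algebraMap_eq] at h
  exact h

theorem alA_C (t a : K) : alA t (C a) = Polynomial.C (C a : Sy K) := by
  have h := (alA t).commutes a
  rw [MvPolynomial.algebraMap_eq] at h
  rw [h]
  rfl

theorem tauA_C (q t a : K) : tauA q t (C a) = Polynomial.C (C a : Sy K) := by
  have h := (tauA q t).commutes a
  rw [MvPolynomial.algebraMap_eq] at h
  rw [h]
  rfl

theorem alA_plq (q t : K) (F : Sy K) :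
    alA t (plq q F) = Polynomial.map (plq q).toRingHom (tauA q t F) := by
  induction F using MvPolynomial.induction_on with
  | C a =>
    rw [plq_C, alA_C, tauA_C, Polynomial.map_C]
    congr 1
    exact (plq_C q a).symm
  | add F G hF hG => rw [map_add, map_add, map_add, hF, hG, Polynomial.map_add]
  | mul_X F j hF =>
    rw [map_mul, map_mul, map_mul, hF, Polynomial.map_mul]
    congr 1
    rw [plq_X, map_mul, alA_C, alA_X, tauA_X, Polynomial.map_add, Polynomial.map_mul,
      Polynomial.map_pow, Polynomial.map_X, Polynomial.map_C, Polynomial.map_C]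
    have e1 : (plq q).toRingHom (X j) = C (1 - q ^ (j + 1)) * (X j : Sy K) := plq_X q j
    have e2 : (plq q).toRingHom (C (Mj q t j)) = (C (Mj q t j) : Sy K) := plq_C q _
    rw [e1, e2, Mj, map_mul C, Polynomial.C_mul, Polynomial.C_mul]
    ring

theorem plq_eh (q : K) (i : ℕ) : plq q (eh K i) = EE q i := by
  have h := hc_map (plq q).toRingHom (fun j => -(X j : Sy K)) i
  have h' : plq q (eh K i) = hc (fun j => (plq q).toRingHom (-(X j : Sy K))) i := h
  rw [h', EE]
  congr 1
  funext j
  have : (plq q).toRingHom (-(X j : Sy K)) = plq q (-(X j)) := rfl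
  rw [this, map_neg, plq_X]

theorem st_HA (K : Type*) [Field K] [CharZero K] : ST_HA K := by
  intro q t F
  have hA : Aop q t (plq q F) = pairS (fun m => EE q m) (alA t (plq q F)) := rfl
  rw [hA, alA_plq, pairS_apply _ _ ((tauA q t F).natDegree + 1)
    (Nat.lt_succ_of_le Polynomial.natDegree_map_le),
    Dk_apply q t 0 F ((tauA q t F).natDegree + 1) (Nat.lt_succ_self _), map_sum]
  refine Finset.sum_congr rfl fun i _ => ?_
  rw [zero_add, ehz_natCast, map_mul, plq_eh, Polynomial.coeff_map]
  rfl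

/-! ## row HP -/

theorem hc_one_sub (t : K) (i : ℕ) :
    hc (fun j => 1 - t ^ (j + 1)) i = if i = 0 then 1 else 1 - t := by
  have h1 : (fun j => 1 - t ^ (j + 1)) = fun j => (1 : K) ^ (j + 1) + -(t ^ (j + 1)) := by
    funext j
    rw [one_pow, sub_eq_add_neg]
  rw [h1, hc_add_range]
  cases i with
  | zero => simp
  | succ n =>
    rw [Finset.sum_range_succ, Finset.sum_range_succ]
    have h2 : ∑ x ∈ range n, hc (fun j => (1 : K) ^ (j + 1)) x
        * hc (fun j => -(t ^ (j + 1))) (n + 1 - x) = 0 := by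
      refine Finset.sum_eq_zero fun x hx => ?_
      rw [mem_range] at hx
      obtain ⟨y, hy⟩ : ∃ y, n + 1 - x = y + 2 := ⟨n - 1 - x, by omega⟩
      rw [hy, hc_neg_geom_two, mul_zero]
    rw [h2, hc_geom, hc_geom, Nat.sub_self, hc_zero]
    have h3 : n + 1 - n = 1 := by omega
    rw [h3, hc_neg_geom_one]
    simp
    ring

theorem alA_hh (t : K) (a i : ℕ) : (alA t (hh K a)).coeff i
    = if i ≤ a then C (hc (fun j => 1 - t ^ (j + 1)) i) * hh K (a - i) else 0 := by
  have h1 : alA t (hh K a)
      = hc (fun j => Polynomial.C (X j : Sy K)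
        + Polynomial.X ^ (j + 1) * Polynomial.C (C (1 - t ^ (j + 1)))) a := by
    have h := hc_map (alA t).toRingHom (fun j => (X j : Sy K)) a
    have h' : (alA t) (hh K a) = hc (fun j => (alA t).toRingHom (X j : Sy K)) a := h
    rw [h']
    congr 1
    funext j
    have : (alA t).toRingHom (X j : Sy K) = alA t (X j) := rfl
    rw [this, alA_X, mul_comm (Polynomial.X ^ (j + 1))]
  rw [h1, hc_add, Polynomial.finsetSum_coeff]
  have h2 : ∀ n, hc (fun j => Polynomial.C (X j : Sy K)) n = Polynomial.C (hh K n) := fun n =>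
    (hc_map (Polynomial.C : Sy K →+* Polynomial (Sy K)) _ n).symm
  have h3 : ∀ n, hc (fun j => (Polynomial.X : Polynomial (Sy K)) ^ (j + 1)
      * Polynomial.C (C (1 - t ^ (j + 1)))) n
      = Polynomial.X ^ n * Polynomial.C (C (hc (fun j => 1 - t ^ (j + 1)) n)) := by
    intro n
    rw [hc_scale]
    congr 1
    have h4 := hc_map ((Polynomial.C : Sy K →+* Polynomial (Sy K)).comp (C : K →+* Sy K))
      (fun j => 1 - t ^ (j + 1)) n
    exact h4.symm
  simp only [h2, h3]
  split_ifs with hia
  · rw [Finset.sum_eq_single (a - i, i)]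
    · rw [mul_comm (Polynomial.X ^ i), ← mul_assoc, ← Polynomial.C_mul, Polynomial.coeff_C_mul_X_pow]
      simp [mul_comm]
    · intro p hp hne
      rw [HasAntidiagonal.mem_antidiagonal] at hp
      rw [mul_comm (Polynomial.X ^ p.2), ← mul_assoc, ← Polynomial.C_mul,
        Polynomial.coeff_C_mul_X_pow, if_neg]
      intro h
      apply hne
      ext <;> simp <;> omega
    · intro h
      exfalso; apply h
      rw [HasAntidiagonal.mem_antidiagonal]; omega
  · refine Finset.sum_eq_zero fun p hp => ?_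
    rw [HasAntidiagonal.mem_antidiagonal] at hp
    rw [mul_comm (Polynomial.X ^ p.2), ← mul_assoc, ← Polynomial.C_mul,
      Polynomial.coeff_C_mul_X_pow, if_neg]
    omega

theorem alA_hz (t : K) (r : ℤ) (i : ℕ) : (alA t (hz K r)).coeff i
    = (if i = 0 then (1 : Sy K) else C (1 - t)) * hz K (r - (i : ℤ)) := by
  by_cases hr : 0 ≤ r
  · obtain ⟨a, rfl⟩ : ∃ a : ℕ, r = (a : ℤ) := ⟨r.toNat, (Int.toNat_of_nonneg hr).symm⟩
    have h1 : hz K (a : ℤ) = hh K a := by simp [hz]
    rw [h1, alA_hh, hc_one_sub]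
    by_cases hi : i ≤ a
    · have h2 : hz K ((a : ℤ) - (i : ℤ)) = hh K (a - i) := by
        have : (a : ℤ) - (i : ℤ) = ((a - i : ℕ) : ℤ) := by omega
        rw [this]; simp [hz]
      rw [if_pos hi, h2]
      split_ifs <;> simp
    · have h2 : hz K ((a : ℤ) - (i : ℤ)) = 0 := by
        rw [hz, if_neg (by omega)]
      rw [if_neg hi, h2, mul_zero]
  · have h1 : hz K r = 0 := by rw [hz, if_neg hr]
    have h2 : hz K (r - (i : ℤ)) = 0 := by rw [hz, if_neg (by omega)]
    rw [h1, h2, map_zero, Polynomial.coeff_zero, mul_zero]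

theorem hz_neg (r : ℤ) (h : r < 0) : hz K r = 0 := by rw [hz, if_neg (by omega)]

theorem alA_hz_natDegree (t : K) (r : ℤ) (M : ℕ) (h : r < M) : (alA t (hz K r)).natDegree ≤ M := by
  rw [Polynomial.natDegree_le_iff_coeff_eq_zero]
  intro i hi
  rw [alA_hz, hz_neg _ (by omega), mul_zero]

theorem alA_hz_sum (t : K) (r : ℤ) (M : ℕ) (h : r < M) : alA t (hz K r)
    = ∑ i ∈ range M, Polynomial.C ((if i = 0 then (1 : Sy K) else C (1 - t)) *
      hz K (r - (i : ℤ))) * Polynomial.X ^ i := by
  ext1 n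
  rw [Polynomial.finsetSum_coeff]
  simp only [Polynomial.coeff_C_mul_X_pow]
  rw [Finset.sum_ite_eq (range M) n]
  rw [alA_hz]
  by_cases h1 : n ∈ range M
  · rw [if_pos h1]
  · rw [if_neg h1]
    rw [mem_range] at h1
    rw [hz_neg _ (by omega), mul_zero]

theorem st_HP (K : Type*) [Field K] [CharZero K] : ST_HP K := by
  intro q t N r M hr
  have hA : Aop q t (hp K N r) = pairS (fun m => EE q m) (alA t (hp K N r)) := rfl
  have hprod : alA t (hp K N r) = ∏ i, alA t (hz K (r i)) := by rw [hp, map_prod]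
  have hdeg : (alA t (hp K N r)).natDegree < N * M + 1 := by
    rw [hprod]
    refine Nat.lt_succ_of_le ((Polynomial.natDegree_prod_le _ _).trans ?_)
    refine (Finset.sum_le_card_nsmul _ _ M fun i _ => alA_hz_natDegree t (r i) M (hr i)).trans ?_
    simp
  rw [hA, pairS_apply _ _ (N * M + 1) hdeg]
  refine Finset.sum_congr rfl fun m _ => ?_
  congr 1
  have e1 : alA t (hp K N r) = ∑ p ∈ Fintype.piFinset (fun _ : Fin N => range M),
      Polynomial.C (∏ i, ((if p i = 0 then (1 : Sy K) else C (1 - t)) *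
      hz K (r i - (p i : ℤ)))) * Polynomial.X ^ (∑ i, p i) := by
    rw [hprod, Finset.prod_congr rfl (fun i _ => alA_hz_sum t (r i) M (hr i)),
      Finset.prod_univ_sum]
    refine Finset.sum_congr rfl fun p _ => ?_
    rw [Finset.prod_mul_distrib, map_prod, Finset.prod_pow_eq_pow_sum]
  rw [e1, Polynomial.finsetSum_coeff]
  simp only [Polynomial.coeff_C_mul_X_pow]
  rw [← Finset.sum_filter]
  have e2 : ∀ p : Fin N → ℕ, (∏ i, (if p i = 0 then (1 : Sy K) else C (1 - t))) *
      hp K N (fun i => r i - (p i : ℤ)) = ∏ i, ((if p i = 0 then (1 : Sy K) else C (1 - t)) *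
      hz K (r i - (p i : ℤ))) := by
    intro p
    rw [hp, ← Finset.prod_mul_distrib]
  rw [Finset.sum_congr rfl (fun p _ => e2 p)]
  refine Finset.sum_subset ?_ ?_
  · intro p hp
    rw [mem_filter] at hp
    rw [Finset.mem_piAntidiag]
    exact ⟨hp.2.symm, fun i _ => mem_univ i⟩
  · intro p hp hn
    rw [Finset.mem_piAntidiag] at hp
    have : ∃ i, M ≤ p i := by
      by_contra hcon
      push Not at hcon
      apply hn
      rw [mem_filter, Fintype.mem_piFinset]
      exact ⟨fun i => mem_range.mpr (hcon i), hp.1.symm⟩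
    obtain ⟨i, hi⟩ := this
    refine Finset.prod_eq_zero (mem_univ i) ?_
    have := hr i
    rw [hz_neg _ (by omega), mul_zero]

end

end TH31
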