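import Pool.Agent.Helper31.TH.VO

/-! # Project TH, row S: shift of linear relations between words of vertex operators -/

set_option linter.unusedSectionVars false

namespace TH31

open MvPolynomial Finset TH

section
variable {K : Type*} [Field K] [CharZero K]

/-- the generating series of the multiplications by `h_j[X/M]` -/
noncomputable def HS (q t : K) : PowerSeries (Module.End K (Sy K)) :=
  PowerSeries.mk (fun j => mu (hst q t j))

theorem mu_one : mu (1 : Sy K) = 1 := by
  refine LinearMap.ext fun F => ?_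
  rw [mu_apply, one_mul, Module.End.one_apply]

theorem HS_Dk (q t : K) (hM : ∀ j, Mj q t j ≠ 0) (k : ℤ) :
    HS q t * PowerSeries.C (Dk q t k)
      = (PowerSeries.C (Dk q t k) - PowerSeries.X * PowerSeries.C (Dk q t (k + 1))) * HS q t := by
  ext1 n
  rw [sub_mul, map_sub, mul_assoc, PowerSeries.coeff_mul_C, PowerSeries.coeff_C_mul]
  cases n with
  | zero =>
    rw [PowerSeries.coeff_zero_X_mul, sub_zero, HS, PowerSeries.coeff_mk, hst_zero, mu_one,
      one_mul, mul_one]
  | succ n =>
    rw [PowerSeries.coeff_succ_X_mul, PowerSeries.coeff_C_mul, HS, PowerSeries.coeff_mk,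
      PowerSeries.coeff_mk]
    exact st_HD K q t hM k n

theorem HS_cancel (q t : K) (G : PowerSeries (Module.End K (Sy K))) (h : G * HS q t = 0)
    (n : ℕ) : PowerSeries.coeff n G = 0 := by
  induction n using Nat.strong_induction_on with
  | _ n ih =>
    have h1 := congrArg (PowerSeries.coeff n) h
    rw [PowerSeries.coeff_mul, Finset.Nat.sum_antidiagonal_eq_sum_range_succ_mk,
      Finset.sum_range_succ] at h1
    have h2 : ∑ i ∈ range n, PowerSeries.coeff i G * PowerSeries.coeff (n - i) (HS q t) = 0 := by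
      refine Finset.sum_eq_zero fun i hi => ?_
      rw [mem_range] at hi
      rw [ih i hi, zero_mul]
    simp only at h1
    rw [h2, zero_add, Nat.sub_self, HS, PowerSeries.coeff_mk, hst_zero, mu_one, mul_one,
      map_zero] at h1
    exact h1

theorem neg_pow_smul (n : ℕ) (Z : Module.End K (Sy K)) :
    ((-1 : K) ^ (n + 1)) • Z = -((-1 : K) ^ n • Z) := by
  refine LinearMap.ext fun F => ?_
  rw [LinearMap.neg_apply, LinearMap.smul_apply, LinearMap.smul_apply, pow_succ, mul_neg_one,
    neg_smul]

theorem word_series (q t : K) (hM : ∀ j, Mj q t j ≠ 0) (k : ℤ) (L : List ℤ) :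
    ∃ G : PowerSeries (Module.End K (Sy K)),
      HS q t * PowerSeries.C ((L.map (fun x => Dk q t (x + k))).prod) = G * HS q t ∧
      PowerSeries.coeff L.length G
        = (-1 : K) ^ L.length • (L.map (fun x => Dk q t (x + (k + 1)))).prod ∧
      ∀ j, L.length < j → PowerSeries.coeff j G = 0 := by
  induction L with
  | nil =>
    refine ⟨1, ?_, ?_, ?_⟩
    · simp
    · simp
    · intro j hj
      rw [PowerSeries.coeff_one, if_neg]
      rw [List.length_nil] at hj
      omega
  | cons x L ih =>
    obtain ⟨G, h1, h2, h3⟩ := ih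
    refine ⟨(PowerSeries.C (Dk q t (x + k)) - PowerSeries.X * PowerSeries.C (Dk q t (x + k + 1)))
      * G, ?_, ?_, ?_⟩
    · rw [List.map_cons, List.prod_cons, map_mul, ← mul_assoc, HS_Dk q t hM, mul_assoc, h1,
        mul_assoc]
    · rw [List.length_cons, sub_mul, map_sub, mul_assoc, PowerSeries.coeff_C_mul,
        PowerSeries.coeff_succ_X_mul, PowerSeries.coeff_C_mul, h3 _ (by omega), mul_zero, zero_sub,
        h2, List.map_cons, List.prod_cons, mul_smul_comm, neg_pow_smul, add_assoc]
    · intro j hj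
      rw [List.length_cons] at hj
      obtain ⟨j, rfl⟩ : ∃ j', j = j' + 1 := ⟨j - 1, by omega⟩
      rw [sub_mul, map_sub, mul_assoc, PowerSeries.coeff_C_mul,
        PowerSeries.coeff_succ_X_mul, PowerSeries.coeff_C_mul, h3 _ (by omega), h3 _ (by omega),
        mul_zero, mul_zero, sub_zero]

theorem family_series (q t : K) (hM : ∀ j, Mj q t j ≠ 0) (k : ℤ) (m : ℕ)
    (f : ℤ → Module.End K (Sy K)) (hf : f ∈ WF q t m) :
    ∃ G : PowerSeries (Module.End K (Sy K)),
      HS q t * PowerSeries.C (f k) = G * HS q t ∧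
      PowerSeries.coeff m G = (-1 : K) ^ m • f (k + 1) := by
  rw [WF] at hf
  induction hf using Submodule.span_induction with
  | mem f hf =>
    obtain ⟨L, hL, rfl⟩ := hf
    obtain ⟨G, h1, h2, _⟩ := word_series q t hM k L
    subst hL
    exact ⟨G, h1, h2⟩
  | zero =>
    refine ⟨0, ?_, ?_⟩
    · simp
    · simp
  | add f g _ _ h1 h2 =>
    obtain ⟨G, a1, a2⟩ := h1
    obtain ⟨G', b1, b2⟩ := h2
    refine ⟨G + G', ?_, ?_⟩
    · rw [Pi.add_apply, map_add, mul_add, add_mul, a1, b1]
    · rw [map_add, a2, b2, Pi.add_apply, smul_add]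
  | smul c f _ h1 =>
    obtain ⟨G, a1, a2⟩ := h1
    have hc : ∀ n (P : PowerSeries (Module.End K (Sy K))),
        PowerSeries.coeff n (PowerSeries.C (c • (1 : Module.End K (Sy K))) * P)
          = c • PowerSeries.coeff n P := by
      intro n P
      rw [PowerSeries.coeff_C_mul, smul_mul_assoc, one_mul]
    refine ⟨PowerSeries.C (c • (1 : Module.End K (Sy K))) * G, ?_, ?_⟩
    · rw [mul_assoc, ← a1]
      ext1 n
      rw [hc, Pi.smul_apply, PowerSeries.coeff_mul_C, PowerSeries.coeff_mul_C, mul_smul_comm]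
    · rw [hc, a2, Pi.smul_apply, smul_smul, smul_smul, mul_comm]

theorem st_S (K : Type*) [Field K] [CharZero K] : ST_S K := by
  intro q t hG m f k hf h0
  obtain ⟨G, h1, h2⟩ := family_series q t (fun j => hG.Mj_ne j) k m f hf
  rw [h0, map_zero, mul_zero] at h1
  rw [HS_cancel q t G h1.symm m] at h2
  have h3 := congrArg (fun x => ((-1 : K) ^ m)⁻¹ • x) h2
  simp only [smul_zero, smul_smul] at h3
  rw [inv_mul_cancel₀ (pow_ne_zero _ (by norm_num)), one_smul] at h3
  exact h3.symm

end

end TH31
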