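import Pool.Agent.Helper86.TH.Stmts

/-! # Project TH, rows DE, DX, DT, HD: vertex operators and multiplication operators -/

set_option linter.unusedSectionVars false

namespace TH31

open MvPolynomial Finset TH

section
variable {K : Type*} [Field K] [CharZero K]

/-- a double sum over pairs, arranged by the sum of the two indices -/
theorem sum_pairs {A : Type*} [AddCommMonoid A] (N N' : ℕ) (f : ℕ → ℕ → A)
    (h1 : ∀ i j, N ≤ i → f i j = 0) (h2 : ∀ i j, N' ≤ j → f i j = 0) :
    ∑ i ∈ range (N + N'), ∑ p ∈ antidiagonal i, f p.1 p.2 =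
      ∑ i ∈ range N, ∑ j ∈ range N', f i j := by
  rw [← Finset.sum_product' (range N) (range N') f]
  rw [← Finset.sum_fiberwise_of_maps_to (s := range N ×ˢ range N') (t := range (N + N'))
    (g := fun p => p.1 + p.2)]
  · refine Finset.sum_congr rfl fun i _ => ?_
    symm
    refine Finset.sum_subset ?_ ?_
    · intro p hp
      rw [mem_filter] at hp
      rw [HasAntidiagonal.mem_antidiagonal]
      exact hp.2
    · intro p hp hn
      rw [HasAntidiagonal.mem_antidiagonal] at hp
      by_cases ha : p.1 < N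
      · by_cases hb : p.2 < N'
        · exfalso
          apply hn
          rw [mem_filter, mem_product, mem_range, mem_range]
          exact ⟨⟨ha, hb⟩, hp⟩
        · exact h2 _ _ (by omega)
      · exact h1 _ _ (by omega)
  · intro p hp
    rw [mem_product, mem_range, mem_range] at hp
    rw [mem_range]
    have := hp.1
    have := hp.2
    omega

/-- the vertex operator applied to a product -/
theorem Dk_mul_apply (q t : K) (k : ℤ) (A F : Sy K) (N : ℕ) (h : (tauA q t A).natDegree < N) :
    Dk q t k (A * F) = ∑ j ∈ range N, tau q t j A * Dk q t (k + j) F := by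
  set N' := (tauA q t F).natDegree + 1 with hN'
  have hd : (tauA q t (A * F)).natDegree < N + N' := by
    rw [map_mul]
    have := Polynomial.natDegree_mul_le (p := tauA q t A) (q := tauA q t F)
    omega
  rw [Dk_apply q t k (A * F) (N + N') hd]
  have e1 : ∀ i ∈ range (N + N'), ehz K (k + i) * tau q t i (A * F)
      = ∑ p ∈ antidiagonal i,
        (fun a b : ℕ => tau q t a A * (ehz K (k + a + b) * tau q t b F)) p.1 p.2 := by
    intro i _
    rw [tau_mul, Finset.mul_sum]
    refine Finset.sum_congr rfl fun p hp => ?_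
    rw [HasAntidiagonal.mem_antidiagonal] at hp
    have : (k + (i : ℤ)) = k + p.1 + p.2 := by
      rw [← hp]; push_cast; ring
    rw [this]
    ring
  rw [Finset.sum_congr rfl e1, sum_pairs N N'
    (fun a b : ℕ => tau q t a A * (ehz K (k + a + b) * tau q t b F))]
  · refine Finset.sum_congr rfl fun j _ => ?_
    rw [Dk_apply q t (k + j) F N' (by omega), Finset.mul_sum]
  · intro i j hi
    rw [tau_large q t A i (by omega)]
    simp
  · intro i j hj
    rw [tau_large q t F j (by omega)]
    simp

/-- the vertex operator applied to a product, when `tau j A` is known -/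
theorem Dk_mul_of (q t : K) (k : ℤ) (A F : Sy K) (a : ℕ) (c : ℕ → Sy K)
    (h : ∀ j, tau q t j A = if j ≤ a then c j else 0) :
    Dk q t k (A * F) = ∑ j ∈ range (a + 1), c j * Dk q t (k + j) F := by
  rw [Dk_mul_apply q t k A F ((tauA q t A).natDegree + 1 + (a + 1)) (by omega)]
  symm
  have e1 : ∑ j ∈ range (a + 1), c j * Dk q t (k + j) F
      = ∑ j ∈ range (a + 1), tau q t j A * Dk q t (k + j) F := by
    refine Finset.sum_congr rfl fun j hj => ?_
    rw [mem_range] at hj
    rw [h, if_pos (by omega)]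
  rw [e1]
  refine Finset.sum_subset ?_ ?_
  · intro j hj
    rw [mem_range] at hj ⊢
    omega
  · intro j _ hj
    rw [mem_range] at hj
    rw [h, if_neg (by omega), zero_mul]

theorem st_DE (K : Type*) [Field K] [CharZero K] : ST_DE K := by
  intro q t k a
  refine LinearMap.ext fun F => ?_
  rw [Module.End.mul_apply, mu_apply,
    Dk_mul_of q t k (eh K a) F a (fun j => om q t j • eh K (a - j)) (fun j => tau_eh q t j a),
    LinearMap.sum_apply]
  refine Finset.sum_congr rfl fun j _ => ?_
  rw [LinearMap.smul_apply, Module.End.mul_apply, mu_apply, smul_mul_assoc]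

theorem st_DX (K : Type*) [Field K] [CharZero K] : ST_DX K := by
  intro q t k
  refine LinearMap.ext fun F => ?_
  have h := Dk_mul_of q t k (eh K 1) F 1 (fun j => om q t j • eh K (1 - j))
    (fun j => tau_eh q t j 1)
  rw [Finset.sum_range_succ, Finset.sum_range_one] at h
  simp only [om_zero, om_one, eh_one, Nat.sub_self, eh_zero, Nat.cast_zero, add_zero,
    Nat.cast_one, Nat.sub_zero, one_smul] at h
  rw [neg_mul, map_neg] at h
  rw [Module.End.mul_apply, LinearMap.add_apply, Module.End.mul_apply, mu_apply, mu_apply,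
    LinearMap.smul_apply]
  have h2 := congrArg (fun x => -x) h
  simp only [neg_neg] at h2
  rw [h2, neg_add, neg_mul, neg_neg, smul_mul_assoc, one_mul, neg_smul, neg_neg]

/-- the values of `tau` on `e_a[X/M]` -/
theorem tau_est (q t : K) (hM : ∀ j, Mj q t j ≠ 0) (i a : ℕ) :
    tau q t i (est q t a) = if i ≤ a then C (hc (fun j => ((-1 : K)) ^ j) i) * est q t (a - i)
      else 0 := by
  have h := tau_hc q t (fun j => (-1 : K) ^ j * (Mj q t j)⁻¹) i a
  have h1 : (fun j => C ((-1 : K) ^ j * (Mj q t j)⁻¹) * (X j : Sy K))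
      = fun j => (-1) ^ j * (C (Mj q t j)⁻¹ * X j) := by
    funext j
    simp [mul_assoc]
  have h2 : (fun j => (-1 : K) ^ j * (Mj q t j)⁻¹ * Mj q t j) = fun j => (-1 : K) ^ j := by
    funext j
    rw [mul_assoc, inv_mul_cancel₀ (hM j), mul_one]
  rw [h1, h2] at h
  exact h

/-- the values of `tau` on `h_a[X/M]` -/
theorem tau_hst (q t : K) (hM : ∀ j, Mj q t j ≠ 0) (i a : ℕ) :
    tau q t i (hst q t a) = if i ≤ a then hst q t (a - i) else 0 := by
  have h := tau_hc q t (fun j => (Mj q t j)⁻¹) i a
  have h2 : (fun j => (Mj q t j)⁻¹ * Mj q t j) = fun j => (1 : K) ^ (j + 1) := by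
    funext j
    rw [inv_mul_cancel₀ (hM j), one_pow]
  rw [h2, hc_geom, one_pow, C_1, one_mul] at h
  exact h

theorem hc_alt (i : ℕ) : hc (fun j => ((-1 : K)) ^ j) i = if i ≤ 1 then 1 else 0 := by
  have h1 : (fun j => ((-1 : K)) ^ j) = fun j => -((-1 : K) ^ (j + 1)) := by
    funext j
    rw [pow_succ]; ring
  rw [h1]
  match i with
  | 0 => simp
  | 1 => rw [hc_neg_geom_one]; simp
  | (n + 2) => rw [hc_neg_geom_two, if_neg (by omega)]

theorem st_DT (K : Type*) [Field K] [CharZero K] : ST_DT K := by
  intro q t hM k j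
  refine LinearMap.ext fun F => ?_
  have h := Dk_mul_of q t k (est q t (j + 1)) F (j + 1)
    (fun i => C (hc (fun j => ((-1 : K)) ^ j) i) * est q t (j + 1 - i))
    (fun i => tau_est q t hM i (j + 1))
  rw [Module.End.mul_apply, mu_apply, h, LinearMap.add_apply, Module.End.mul_apply,
    Module.End.mul_apply, mu_apply, mu_apply]
  rw [Finset.sum_range_succ', Finset.sum_range_succ']
  have e0 : ∑ i ∈ range j, (C (hc (fun j => ((-1 : K)) ^ j) (i + 1 + 1)) *
      est q t (j + 1 - (i + 1 + 1))) * Dk q t (k + ((i + 1 + 1 : ℕ) : ℤ)) F = 0 := by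
    refine Finset.sum_eq_zero fun i _ => ?_
    rw [hc_alt, if_neg (by omega)]
    simp
  rw [e0, hc_alt, hc_alt]
  simp
  ring

theorem Dk_hst (q t : K) (hM : ∀ j, Mj q t j ≠ 0) (k : ℤ) (a : ℕ) (F : Sy K) :
    Dk q t k (hst q t a * F) = ∑ j ∈ range (a + 1), hst q t (a - j) * Dk q t (k + j) F :=
  Dk_mul_of q t k (hst q t a) F a (fun j => hst q t (a - j)) (fun j => tau_hst q t hM j a)

theorem st_HD (K : Type*) [Field K] [CharZero K] : ST_HD K := by
  intro q t hM k j
  refine LinearMap.ext fun F => ?_
  rw [LinearMap.sub_apply, Module.End.mul_apply, Module.End.mul_apply, Module.End.mul_apply,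
    mu_apply, mu_apply, mu_apply, Dk_hst q t hM, Dk_hst q t hM, Finset.sum_range_succ']
  have e1 : ∀ i ∈ range (j + 1), hst q t (j + 1 - (i + 1)) * Dk q t (k + ((i + 1 : ℕ) : ℤ)) F
      = hst q t (j - i) * Dk q t (k + 1 + i) F := by
    intro i _
    have : k + ((i + 1 : ℕ) : ℤ) = k + 1 + i := by push_cast; ring
    rw [this, Nat.add_sub_add_right]
  rw [Finset.sum_congr rfl e1]
  simp

end

end TH31
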